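import Pool.Agent.H80.Gs6

set_option autoImplicit false

open MeasureTheory ProbabilityTheory Pool.Agent.H80.GsD

theorem Pool.Agent.Results.MP_0ffb5f_gt.Yes.result :
    ∃ g : ℝ → ℝ, AntitoneOn g (Set.Ioc 0 1) ∧ (∀ p ∈ Set.Ioc (0 : ℝ) 1, 0 ≤ g p) ∧
      ∀ (n : ℕ), 1 ≤ n → ∀ V : Set (EuclideanSpace ℝ (Fin n)), IsCompact V → Convex ℝ V →
        0 ∈ interior V → ∫ x in V, x ∂stdGaussian (EuclideanSpace ℝ (Fin n)) = 0 →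
        beta V ≤ ((g ((stdGaussian (EuclideanSpace ℝ (Fin n))).real V) : ℝ) : EReal) := by
  obtain ⟨g, h1, h2, h3⟩ := Pool.Agent.H80.Gs.main2
  exact ⟨g, h1, h2, fun n _ V hV hc h0 hb => h3 n V hV.isClosed hc ⟨0, h0⟩ hb⟩
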